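import Pool.Agent.Lib.MP_efa40c_ag.General

/-!
A counterexample to the strong Froeberg-Iarrobino conjecture: `n = 4`, `d = 38`, `m = 22`, `s = 9`.
The rational normal quartic through seven of the nine points lies in the base locus with
multiplicity `7 * 22 - 4 * 38 = 2` and gives a relation among the conditions that is not accounted
for by the linear virtual dimension.
-/

namespace Pool.Agent.Results.MP_efa40c_ag.Counterexample

open MvPolynomial

/-- The linear system: forms of degree `d` in `n + 1` variables that vanish to order at least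
`m i` at the point with homogeneous coordinates `p i`, that is, lie in the `m i`-th power of the
maximal ideal of `p i`. -/
noncomputable def linSys (n d : ℕ) {s : ℕ} (m : Fin s → ℕ) (p : Fin s → Fin (n + 1) → ℂ) :
    Submodule ℂ (MvPolynomial (Fin (n + 1)) ℂ) :=
  homogeneousSubmodule (Fin (n + 1)) ℂ d ⊓
    ⨅ i, ((RingHom.ker (eval (p i))) ^ (m i)).restrictScalars ℂ

/-- `k_I = max (∑_{i ∈ I} m_i - r d) 0` with `r = |I| - 1`; for `I` empty this is `d`. -/
def kI (d : ℕ) {s : ℕ} (m : Fin s → ℕ) (I : Finset (Fin s)) : ℕ :=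
  ((∑ i ∈ I, (m i : ℤ)) - ((I.card : ℤ) - 1) * d).toNat

/-- The linear virtual dimension; `|I| = r + 1` ranges over `0, ..., min n s`. -/
def lvdim (n d : ℕ) {s : ℕ} (m : Fin s → ℕ) : ℤ :=
  ∑ I ∈ Finset.univ.filter (fun I : Finset (Fin s) => I.card ≤ min n s),
    (-1) ^ I.card * ((n + kI d m I - I.card).choose n : ℕ)

open Classical in
/-- The linear expected dimension. -/
noncomputable def ldim (n d : ℕ) {s : ℕ} (m : Fin s → ℕ) : ℤ :=
  if ∃ m' : Fin s → ℕ, (∀ i, m' i ≤ m i) ∧ lvdim n d m' < 0 then 0 else max (lvdim n d m) 0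

/-- The exceptional cases (i) to (v) of the conjecture. -/
def Excluded (n d m s : ℕ) : Prop :=
  s = n + 3 ∨ s = n + 4 ∨ (n = 2 ∧ (s = 7 ∨ s = 8)) ∨ (n = 3 ∧ s = 9 ∧ 2 * m ≤ d) ∨
    (n = 4 ∧ s = 14 ∧ d = 2 * m ∧ (m = 2 ∨ m = 3))

lemma mem_linSys (n d : ℕ) {s : ℕ} (m : Fin s → ℕ) (p : Fin s → Fin (n + 1) → ℂ)
    (F : MvPolynomial (Fin (n + 1)) ℂ) :
    F ∈ linSys n d m p ↔ F.IsHomogeneous d ∧ ∀ i, F ∈ (RingHom.ker (eval (p i))) ^ (m i) := by
  simp [linSys]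

theorem result :
    ¬ Excluded 4 38 22 9 ∧ ldim 4 38 (fun _ : Fin 9 => 22) = 600 ∧
      ∃ Φ : MvPolynomial (Fin 9 × Fin 5) ℂ, Φ ≠ 0 ∧
        ∀ p : Fin 9 → Fin 5 → ℂ, eval (fun x : Fin 9 × Fin 5 => p x.1 x.2) Φ ≠ 0 →
          (∀ i, p i ≠ 0) ∧ 601 ≤ Module.finrank ℂ (linSys 4 38 (fun _ : Fin 9 => 22) p) := by
  refine ⟨by simp [Excluded], ?_, Lib.MP_efa40c_ag.minors, Lib.MP_efa40c_ag.minors_ne_zero, ?_⟩
  · have h1 : lvdim 4 38 (fun _ : Fin 9 => 22) = 600 := Lib.MP_efa40c_ag.virt_eq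
    rw [ldim, if_neg, h1]
    · rfl
    · rintro ⟨m', hm', hneg⟩
      have h2 : 600 ≤ lvdim 4 38 m' := Lib.MP_efa40c_ag.virt_ge m' hm'
      omega
  · intro p hp
    have h := Lib.MP_efa40c_ag.hyp_of_minors hp
    refine ⟨h.ne_zero, h.finrank_ge _ inf_le_left ?_⟩
    intro F hF hFi
    refine (mem_linSys 4 38 _ p F).mpr ⟨hF, fun i => ?_⟩
    generalize (22 : ℕ) = e at hFi ⊢
    exact hFi i

end Pool.Agent.Results.MP_efa40c_ag.Counterexample
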