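import Pool.Agent.Lib.MP_efa40c_ag.HN.Main

/-!
Nagata's bound in projective space of dimension `n ≥ 3`: a hypersurface of degree `d` with
multiplicities at least `m i` at `s ≥ 3 ^ n` general points has `∑ m i ≤ s ^ ((n - 1) / n) * d`.
-/

set_option autoImplicit false

namespace Pool.Agent.Results.MP_efa40c_ag.HigherNagata

open MvPolynomial

theorem result (n s d : ℕ) (m : Fin s → ℕ) (hn : 3 ≤ n) (hs : 3 ^ n ≤ s)
    (h : s ^ (n - 1) * d ^ n < (∑ i, m i) ^ n) :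
    ∃ Φ : MvPolynomial (Fin s × Fin (n + 1)) ℂ, Φ ≠ 0 ∧
      ∀ p : Fin s → Fin (n + 1) → ℂ, eval (fun x : Fin s × Fin (n + 1) => p x.1 x.2) Φ ≠ 0 →
        (∀ i, p i ≠ 0) ∧ homogeneousSubmodule (Fin (n + 1)) ℂ d ⊓
          ⨅ i, ((RingHom.ker (eval (p i))) ^ (m i)).restrictScalars ℂ = ⊥ :=
  Lib.MP_efa40c_ag.HN.nagata (by omega) hs h

end Pool.Agent.Results.MP_efa40c_ag.HigherNagata
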