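import Pool.Agent.Lib.MP_efa40c_ag.HN.Main

/-!
The strong Froeberg-Iarrobino prediction holds for `s ≥ 3 ^ n` general points of projective space
of dimension `n ≥ 3` in all degrees `d` outside the window
`s ^ (1 / n) * m ≤ d < s ^ (1 / n) * (m + n - 1) - (n + 1)`.
-/

set_option autoImplicit false

namespace Pool.Agent.Results.MP_efa40c_ag.OutsideWindow

open MvPolynomial

/-- The linear system: forms of degree `d` in `n + 1` variables that vanish to order at least
`m i` at the point with homogeneous coordinates `p i`, that is, lie in the `m i`-th power of the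
maximal ideal of `p i`. -/
noncomputable def linSys (n d : ℕ) {s : ℕ} (m : Fin s → ℕ) (p : Fin s → Fin (n + 1) → ℂ) :
    Submodule ℂ (MvPolynomial (Fin (n + 1)) ℂ) :=
  homogeneousSubmodule (Fin (n + 1)) ℂ d ⊓
    ⨅ i, ((RingHom.ker (eval (p i))) ^ (m i)).restrictScalars ℂ

/-- `k_I = max (∑_{i ∈ I} m_i - r d) 0` with `r = |I| - 1`; for `I` empty this is `d`. -/
def kI (d : ℕ) {s : ℕ} (m : Fin s → ℕ) (I : Finset (Fin s)) : ℕ :=
  ((∑ i ∈ I, (m i : ℤ)) - ((I.card : ℤ) - 1) * d).toNat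

/-- The linear virtual dimension; `|I| = r + 1` ranges over `0, ..., min n s`. -/
def lvdim (n d : ℕ) {s : ℕ} (m : Fin s → ℕ) : ℤ :=
  ∑ I ∈ Finset.univ.filter (fun I : Finset (Fin s) => I.card ≤ min n s),
    (-1) ^ I.card * ((n + kI d m I - I.card).choose n : ℕ)

open Classical in
/-- The linear expected dimension. -/
noncomputable def ldim (n d : ℕ) {s : ℕ} (m : Fin s → ℕ) : ℤ :=
  if ∃ m' : Fin s → ℕ, (∀ i, m' i ≤ m i) ∧ lvdim n d m' < 0 then 0 else max (lvdim n d m) 0

open Lib.MP_efa40c_ag.HN in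
theorem result (n s d m : ℕ) (hn : 3 ≤ n) (hs : 3 ^ n ≤ s) (hd : 0 < d) (hm : 0 < m)
    (h : d ^ n < s * m ^ n ∨ s * (m + n - 1) ^ n ≤ (d + n + 1) ^ n) :
    ∃ Φ : MvPolynomial (Fin s × Fin (n + 1)) ℂ, Φ ≠ 0 ∧
      ∀ p : Fin s → Fin (n + 1) → ℂ, eval (fun x : Fin s × Fin (n + 1) => p x.1 x.2) Φ ≠ 0 →
        (∀ i, p i ≠ 0) ∧
          (Module.finrank ℂ (linSys n d (fun _ : Fin s => m) p) : ℤ) =
            ldim n d (fun _ : Fin s => m) := by
  obtain ⟨n, rfl⟩ : ∃ k, n = k + 1 := ⟨n - 1, by omega⟩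
  obtain ⟨ν, h1, h2⟩ := exists_root hs
  have hv : ∀ m' : Fin s → ℕ, (∀ i, 2 * m' i ≤ d + 1) → lvdim (n + 1) d m' =
      ((n + 1 + d).choose (n + 1) : ℕ) - ∑ i, (((n + 1 + m' i - 1).choose (n + 1) : ℕ) : ℤ) :=
    fun m' hm' => virt_small (by omega) m' hm'
  rcases h with h | h
  · have h3 : (d : ℝ) < ν * m := by
      refine lt_of_pow_lt_pow_left₀ (n + 1) (by positivity) ?_
      rw [mul_pow, h2]
      exact_mod_cast h
    have h4 : ldim (n + 1) d (fun _ : Fin s => m) = 0 := by
      refine if_pos ⟨fun _ => min m ((d + 1) / 2), fun _ => min_le_left _ _, ?_⟩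
      rw [hv _ fun _ => by omega]
      have h5 : (d : ℝ) < ν * (min m ((d + 1) / 2) : ℕ) := by
        rcases le_total m ((d + 1) / 2) with h5 | h5
        · rwa [min_eq_left h5]
        · rw [min_eq_right h5]
          have h6 : (d : ℝ) < 3 * ((d + 1) / 2 : ℕ) := by exact_mod_cast (by omega)
          nlinarith [Nat.cast_nonneg (α := ℝ) ((d + 1) / 2)]
      have h6 := choose_lt hn h1 h5
      rw [h2] at h6
      rw [Finset.sum_const, Finset.card_univ, Fintype.card_fin, nsmul_eq_mul, sub_neg]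
      exact_mod_cast h6
    refine (proj_emp (m := fun _ => m) (d := d) h1 h2 ?_).mono fun p hp => ⟨hp.1, ?_⟩
    · rw [Finset.sum_const, Finset.card_univ, Fintype.card_fin, nsmul_eq_mul, ← h2, pow_succ,
        mul_assoc]
      exact mul_lt_mul_of_pos_left h3 (by positivity)
    · rw [h4, show linSys (n + 1) d (fun _ : Fin s => m) p = ⊥ from hp.2, finrank_bot]
      rfl
  · have h3 : ν * (m + n) ≤ d + n + 2 := by
      refine le_of_pow_le_pow_left₀ (Nat.succ_ne_zero n) (by positivity) ?_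
      rw [mul_pow, h2]
      exact_mod_cast h
    have h4 : 2 * m ≤ d := by
      have h4 : (2 : ℝ) ≤ n := by exact_mod_cast (by omega)
      have : 2 * (m : ℝ) ≤ d := by nlinarith [Nat.cast_nonneg (α := ℝ) m]
      exact_mod_cast this
    refine (proj_reg (by omega) h1 h2 h3).mono fun p hp => ⟨hp.1, ?_⟩
    have h5 : (Module.finrank ℂ (linSys (n + 1) d (fun _ : Fin s => m) p) : ℤ) =
        lvdim (n + 1) d (fun _ : Fin s => m) := by
      rw [hv _ fun _ => by omega, Finset.sum_const, Finset.card_univ, Fintype.card_fin,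
        nsmul_eq_mul, ← hp.2]
      push_cast
      exact (add_sub_cancel_right _ _).symm
    rw [ldim, if_neg, ← h5, max_eq_left (Nat.cast_nonneg _)]
    rintro ⟨m', h6, h7⟩
    have h8 : lvdim (n + 1) d (fun _ : Fin s => m) ≤ lvdim (n + 1) d m' := by
      rw [hv _ fun _ => by omega, hv _ fun i => by have := h6 i; omega]
      refine sub_le_sub_left (Finset.sum_le_sum fun i _ => ?_) _
      have := h6 i
      exact_mod_cast Nat.choose_le_choose _ (by omega)
    rw [← h5] at h8
    omega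

end Pool.Agent.Results.MP_efa40c_ag.OutsideWindow
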